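import Pool.Agent.Lib.TENS.Basic
import Pool.Agent.Lib.MFI.Ban

/-! The algebras `B(H) ⊗ A` and `K(H) ⊗ A`. -/

set_option linter.unusedSectionVars false

noncomputable section

open scoped InnerProductSpace
open ContinuousLinearMap Filter Topology InnerProductSpace

namespace Pool.Agent.Lib.TENS

variable {H H' H'' K : Type} [NormedAddCommGroup H] [InnerProductSpace ℝ H]
  [NormedAddCommGroup H'] [InnerProductSpace ℝ H'] [NormedAddCommGroup H''] [InnerProductSpace ℝ H'']
  [NormedAddCommGroup K] [InnerProductSpace ℝ K] (A : Subalgebra ℝ (K →L[ℝ] K))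

variable (H H') in
/-- the closed span of the operators `T ⊗ a` -/
def TR : Submodule ℝ (HT H K →L[ℝ] HT H' K) :=
  (Submodule.span ℝ {x | ∃ T : H →L[ℝ] H', ∃ a ∈ A, x = tn T a}).topologicalClosure

variable (H H') in
/-- the closed span of the operators `T ⊗ a`, `T` compact -/
def TK : Submodule ℝ (HT H K →L[ℝ] HT H' K) :=
  (Submodule.span ℝ
    {x | ∃ T : H →L[ℝ] H', IsCompactOperator T ∧ ∃ a ∈ A, x = tn T a}).topologicalClosure

variable {A}

theorem isClosed_TR : IsClosed (TR H H' A : Set (HT H K →L[ℝ] HT H' K)) :=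
  Submodule.isClosed_topologicalClosure _

theorem isClosed_TK : IsClosed (TK H H' A : Set (HT H K →L[ℝ] HT H' K)) :=
  Submodule.isClosed_topologicalClosure _

theorem tn_mem (T : H →L[ℝ] H') {a : K →L[ℝ] K} (ha : a ∈ A) : tn T a ∈ TR H H' A :=
  Submodule.le_topologicalClosure _ (Submodule.subset_span ⟨T, a, ha, rfl⟩)

theorem tn_mem_TK {T : H →L[ℝ] H'} (hT : IsCompactOperator T) {a : K →L[ℝ] K} (ha : a ∈ A) :
    tn T a ∈ TK H H' A :=
  Submodule.le_topologicalClosure _ (Submodule.subset_span ⟨T, hT, a, ha, rfl⟩)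

theorem TR_ind (S : Submodule ℝ (HT H K →L[ℝ] HT H' K)) (hS : IsClosed (S : Set (HT H K →L[ℝ] HT H' K)))
    (h : ∀ T, ∀ a ∈ A, tn T a ∈ S) {x} (hx : x ∈ TR H H' A) : x ∈ S :=
  Submodule.topologicalClosure_minimal _
    (Submodule.span_le.2 (by rintro _ ⟨T, a, ha, rfl⟩; exact h T a ha)) hS hx

theorem TK_ind (S : Submodule ℝ (HT H K →L[ℝ] HT H' K)) (hS : IsClosed (S : Set (HT H K →L[ℝ] HT H' K)))
    (h : ∀ T : H →L[ℝ] H', IsCompactOperator T → ∀ a ∈ A, tn T a ∈ S) {x} (hx : x ∈ TK H H' A) :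
    x ∈ S :=
  Submodule.topologicalClosure_minimal _
    (Submodule.span_le.2 (by rintro _ ⟨T, hT, a, ha, rfl⟩; exact h T hT a ha)) hS hx

theorem TR_map {W : Type*} [AddCommGroup W] [Module ℝ W] [TopologicalSpace W]
    (φ : (HT H K →L[ℝ] HT H' K) →L[ℝ] W) (S : Submodule ℝ W) (hS : IsClosed (S : Set W))
    (h : ∀ T, ∀ a ∈ A, φ (tn T a) ∈ S) {x} (hx : x ∈ TR H H' A) : φ x ∈ S :=
  TR_ind (S.comap φ.toLinearMap) (hS.preimage φ.continuous) h hx

theorem TK_map {W : Type*} [AddCommGroup W] [Module ℝ W] [TopologicalSpace W]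
    (φ : (HT H K →L[ℝ] HT H' K) →L[ℝ] W) (S : Submodule ℝ W) (hS : IsClosed (S : Set W))
    (h : ∀ T : H →L[ℝ] H', IsCompactOperator T → ∀ a ∈ A, φ (tn T a) ∈ S) {x}
    (hx : x ∈ TK H H' A) : φ x ∈ S :=
  TK_ind (S.comap φ.toLinearMap) (hS.preimage φ.continuous) h hx

theorem TK_le : TK H H' A ≤ TR H H' A := fun _ hx =>
  TK_ind _ isClosed_TR (fun T _ _ ha => tn_mem T ha) hx

theorem comp_mem {x : HT H' K →L[ℝ] HT H'' K} {y : HT H K →L[ℝ] HT H' K} (hx : x ∈ TR H' H'' A)
    (hy : y ∈ TR H H' A) : x ∘L y ∈ TR H H'' A := by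
  refine TR_map ((compL ℝ (HT H K) (HT H' K) (HT H'' K)).flip y) _ isClosed_TR
    (fun T a ha => ?_) hx
  refine TR_map (compL ℝ (HT H K) (HT H' K) (HT H'' K) (tn T a)) _ isClosed_TR
    (fun S b hb => ?_) hy
  change tn T a ∘L tn S b ∈ _
  rw [tn_comp]
  exact tn_mem _ (A.mul_mem ha hb)

theorem comp_mem_TK_left {x : HT H' K →L[ℝ] HT H'' K} {y : HT H K →L[ℝ] HT H' K}
    (hx : x ∈ TR H' H'' A) (hy : y ∈ TK H H' A) : x ∘L y ∈ TK H H'' A := by
  refine TR_map ((compL ℝ (HT H K) (HT H' K) (HT H'' K)).flip y) _ isClosed_TK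
    (fun T a ha => ?_) hx
  refine TK_map (compL ℝ (HT H K) (HT H' K) (HT H'' K) (tn T a)) _ isClosed_TK
    (fun S hS b hb => ?_) hy
  change tn T a ∘L tn S b ∈ _
  rw [tn_comp]
  exact tn_mem_TK (hS.clm_comp T) (A.mul_mem ha hb)

theorem comp_mem_TK_right {x : HT H' K →L[ℝ] HT H'' K} {y : HT H K →L[ℝ] HT H' K}
    (hx : x ∈ TK H' H'' A) (hy : y ∈ TR H H' A) : x ∘L y ∈ TK H H'' A := by
  refine TK_map ((compL ℝ (HT H K) (HT H' K) (HT H'' K)).flip y) _ isClosed_TK
    (fun T hT a ha => ?_) hx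
  refine TR_map (compL ℝ (HT H K) (HT H' K) (HT H'' K) (tn T a)) _ isClosed_TK
    (fun S b hb => ?_) hy
  change tn T a ∘L tn S b ∈ _
  rw [tn_comp]
  exact tn_mem_TK (hT.comp_clm S) (A.mul_mem ha hb)

variable (H A) in
/-- the algebra `B(H) ⊗ A` -/
def TA : Subalgebra ℝ (HT H K →L[ℝ] HT H K) :=
  (TR H H A).toSubalgebra (tn_one (H := H) (K := K) ▸ tn_mem 1 A.one_mem) fun _ _ => comp_mem

theorem mem_TA {x : HT H K →L[ℝ] HT H K} : x ∈ TA H A ↔ x ∈ TR H H A := Iff.rfl

theorem isClosed_TA : IsClosed (TA H A : Set (HT H K →L[ℝ] HT H K)) := isClosed_TR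

instance : CompleteSpace (TA H A) := isClosed_TA.completeSpace_coe

/-! ### compact operators -/

section compact
variable [CompleteSpace H] [CompleteSpace H']

/-- the projection on the span of a finite set -/
def pr (s : Finset H) : H →L[ℝ] H := (Submodule.span ℝ (s : Set H)).starProjection

omit [CompleteSpace H] in
theorem norm_pr_le (s : Finset H) : ‖pr s‖ ≤ 1 := Submodule.starProjection_norm_le _

omit [CompleteSpace H] in
theorem compact_pr (s : Finset H) : IsCompactOperator (pr s) :=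
  (isCompactOperator_of_locallyCompactSpace_dom
    (Submodule.span ℝ (s : Set H)).orthogonalProjectionOnto).clm_comp (Submodule.subtypeL _)

theorem adjoint_pr (s : Finset H) : adjoint (pr s) = pr s := isSelfAdjoint_starProjection _

omit [CompleteSpace H] [CompleteSpace H'] in
theorem tendsto_pr_comp {T : H →L[ℝ] H'} (hT : IsCompactOperator T) :
    Tendsto (fun s => pr s ∘L T) atTop (𝓝 T) := by
  refine Metric.tendsto_nhds.2 fun ε hε => ?_
  obtain ⟨C, hC, hs⟩ := IsCompactOperator.image_closedBall_subset_compact (f := T.toLinearMap) hT 1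
  obtain ⟨t, -, ht, hc⟩ := hC.finite_cover_balls (show 0 < ε / 3 by positivity)
  refine (eventually_ge_atTop ht.toFinset).mono fun s hts => ?_
  rw [dist_eq_norm]
  refine lt_of_le_of_lt (opNorm_le_of_unit_norm (C := 2 * (ε / 3)) (by positivity) fun u hu => ?_)
    (by linarith)
  obtain ⟨y, hy, hd⟩ := Set.mem_iUnion₂.1 (hc (hs ⟨u, by simp [hu], rfl⟩))
  have e : pr s y = y := Submodule.starProjection_eq_self_iff.2
    (Submodule.subset_span (hts (ht.mem_toFinset.2 hy)))
  have e2 : (pr s ∘L T - T) u = pr s (T u - y) - (T u - y) := by simp [e]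
  have e3 : ‖T u - y‖ ≤ ε / 3 := (mem_ball_iff_norm.1 hd).le
  have e4 : ‖pr s (T u - y)‖ ≤ ‖T u - y‖ := Submodule.norm_starProjection_apply_le _ _
  rw [e2]
  linarith [norm_sub_le (pr s (T u - y)) (T u - y)]

theorem compact_adjoint {T : H →L[ℝ] H'} (hT : IsCompactOperator T) :
    IsCompactOperator (adjoint T) := by
  have h := ((adjoint (E := H) (F := H') (𝕜 := ℝ)).continuous.tendsto T).comp (tendsto_pr_comp hT)
  refine isClosed_setOfPred_isCompactOperator.mem_of_tendsto h (Eventually.of_forall fun s => ?_)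
  simp only [Function.comp, adjoint_comp, adjoint_pr]
  exact (compact_pr s).clm_comp (adjoint T)

theorem tendsto_comp_pr {T : H →L[ℝ] H'} (hT : IsCompactOperator T) :
    Tendsto (fun s => T ∘L pr s) atTop (𝓝 T) := by
  have h := ((adjoint (E := H') (F := H) (𝕜 := ℝ)).continuous.tendsto _).comp
    (tendsto_pr_comp (compact_adjoint hT))
  simpa only [Function.comp_def, adjoint_comp, adjoint_pr, adjoint_adjoint] using h

theorem tendsto_pr_pr {T : H →L[ℝ] H} (hT : IsCompactOperator T) :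
    Tendsto (fun s => pr s * T * pr s) atTop (𝓝 T) := by
  have h1 : Tendsto (fun s => pr s * (T * pr s - T)) atTop (𝓝 0) := by
    refine squeeze_zero_norm (fun s => (norm_mul_le _ _).trans
      (mul_le_of_le_one_left (norm_nonneg _) (norm_pr_le s))) ?_
    exact tendsto_iff_norm_sub_tendsto_zero.1 (tendsto_comp_pr hT)
  have h2 := h1.add (tendsto_pr_comp hT)
  rw [zero_add] at h2
  refine h2.congr fun s => ?_
  rw [mul_sub, mul_assoc]
  exact sub_add_cancel _ _

variable [CompleteSpace K]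

theorem adjoint_mem (hA : ∀ a ∈ A, star a ∈ A) {x : HT H K →L[ℝ] HT H' K} (hx : x ∈ TR H H' A) :
    adjoint x ∈ TR H' H A := by
  refine TR_ind ((TR H' H A).comap (adjoint (E := HT H K) (F := HT H' K) (𝕜 := ℝ)).toLinearEquiv.toLinearMap)
    (isClosed_TR.preimage (adjoint (E := HT H K) (F := HT H' K) (𝕜 := ℝ)).continuous) (fun T a ha => ?_) hx
  change adjoint (tn T a) ∈ TR H' H A
  rw [adjoint_tn]
  exact tn_mem _ (hA a ha)

theorem adjoint_mem_TK (hA : ∀ a ∈ A, star a ∈ A) {x : HT H K →L[ℝ] HT H' K} (hx : x ∈ TK H H' A) :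
    adjoint x ∈ TK H' H A := by
  refine TK_ind ((TK H' H A).comap (adjoint (E := HT H K) (F := HT H' K) (𝕜 := ℝ)).toLinearEquiv.toLinearMap)
    (isClosed_TK.preimage (adjoint (E := HT H K) (F := HT H' K) (𝕜 := ℝ)).continuous) (fun T hT a ha => ?_) hx
  change adjoint (tn T a) ∈ TK H' H A
  rw [adjoint_tn]
  exact tn_mem_TK (compact_adjoint hT) (hA a ha)

end compact

/-! ### the index context -/

theorem compact_rankOne (u : H') (v : H) : IsCompactOperator (rankOne ℝ u v) :=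
  (isCompactOperator_of_locallyCompactSpace_dom (innerSL ℝ v)).clm_comp (toSpanSingleton ℝ u)

theorem norm_le_tn {u : H} (hu : ‖u‖ = 1) (a : K →L[ℝ] K) : ‖a‖ ≤ ‖tn (rankOne ℝ u u) a‖ := by
  refine opNorm_le_bound _ (norm_nonneg _) fun v => ?_
  have := (tn (rankOne ℝ u u) a).le_opNorm (tm u v)
  simpa [norm_tm, hu] using this

variable (H A) in
/-- the ideal `K(H) ⊗ A` -/
def TJ : TwoSidedIdeal (TA H A) :=
  .mk' {x | x.1 ∈ TK H H A} (TK H H A).zero_mem (fun h h' => (TK H H A).add_mem h h')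
    (fun h => (TK H H A).neg_mem h)
    (fun {x _} h => comp_mem_TK_left x.2 h) fun {_ y} h => comp_mem_TK_right h y.2

theorem mem_TJ {x : TA H A} : x ∈ TJ H A ↔ x.1 ∈ TK H H A := TwoSidedIdeal.mem_mk' ..

/-- the index context of a unit vector -/
def ctx (hA : IsClosed (A : Set (K →L[ℝ] K))) [CompleteSpace K] {u : H} (hu : ‖u‖ = 1) :
    MFI.Ctx (TA H A) A where
  io :=
    { toFun := fun a => ⟨tn (rankOne ℝ u u) a.1, tn_mem _ a.2⟩
      map_mul' := fun a b => Subtype.ext (by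
        change _ = tn _ _ * tn _ _
        rw [tn_mul, (isIdempotentElem_rankOne_self hu).eq]; rfl)
      map_zero' := Subtype.ext (tn_zero_right _)
      map_add' := fun a b => Subtype.ext (tn_add_right _ _ _) }
  J := TJ H A
  inj := (injective_iff_map_eq_zero _).2 fun a h => Subtype.ext (norm_le_zero_iff.1
    ((norm_le_tn hu a.1).trans (norm_le_zero_iff.2 (congrArg Subtype.val h))))
  full x := by
    let p : H →L[ℝ] H := rankOne ℝ u u
    let f : (K →L[ℝ] K) →L[ℝ] HT H K →L[ℝ] HT H K := tnL H H K K p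
    have hf : AntilipschitzWith 1 f := f.antilipschitz_of_bound fun a => by
      rw [NNReal.coe_one, one_mul]; exact norm_le_tn hu a
    have hc : IsClosed ((A.toSubmodule.map f.toLinearMap : Submodule ℝ _) : Set (HT H K →L[ℝ] HT H K)) :=
      (hf.isClosedEmbedding f.uniformContinuous).isClosedMap _ hA
    obtain ⟨b, hb, e⟩ := TR_map (mulLeftRight ℝ (HT H K →L[ℝ] HT H K) (tn p 1) (tn p 1)) _ hc
      (fun T a ha => ⟨⟪u, T u⟫_ℝ • a, A.smul_mem ha _, hext fun w v => by
        simp [f, p, tm_smul_left, smul_smul, mul_comm]⟩) x.2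
    exact ⟨⟨b, hb⟩, Subtype.ext e⟩
  one_mem := mem_TJ.2 (tn_mem_TK (compact_rankOne u u) A.one_mem)

theorem ctx_io (hA : IsClosed (A : Set (K →L[ℝ] K))) [CompleteSpace K] {u : H} (hu : ‖u‖ = 1)
    (a : A) : ((ctx hA hu).io a).1 = tn (rankOne ℝ u u) a.1 := rfl

theorem mem_ctx_J (hA : IsClosed (A : Set (K →L[ℝ] K))) [CompleteSpace K] {u : H} (hu : ‖u‖ = 1)
    {x : TA H A} : x ∈ (ctx hA hu).J ↔ x.1 ∈ TK H H A := mem_TJ

theorem tendsto_TK [CompleteSpace H] {x : HT H K →L[ℝ] HT H K} (hx : x ∈ TK H H A) :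
    Tendsto (fun s => tn (pr s) 1 * x * tn (pr s) 1) atTop (𝓝 x) := by
  have hn : ∀ s : Finset H, ‖tn (pr s) (1 : K →L[ℝ] K)‖ ≤ 1 := fun s =>
    (norm_tn_le _ _).trans (mul_le_one₀ (norm_pr_le s) (norm_nonneg _) norm_id_le)
  let S : Submodule ℝ (HT H K →L[ℝ] HT H K) :=
    { carrier := {x | Tendsto (fun s => tn (pr s) 1 * x * tn (pr s) 1) atTop (𝓝 x)}
      add_mem' := fun h h' => (h.add h').congr fun s => by simp only [mul_add, add_mul]
      zero_mem' := by simp
      smul_mem' := fun c x h => (h.const_smul c).congr fun s => by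
        simp only [mul_smul_comm, smul_mul_assoc] }
  refine TK_ind S ?_ (fun T hT a _ => ?_) hx
  · refine isClosed_of_closure_subset fun y hy => Metric.tendsto_nhds.2 fun ε hε => ?_
    obtain ⟨z, hz, hd⟩ := Metric.mem_closure_iff.1 hy (ε / 3) (by positivity)
    refine (Metric.tendsto_nhds.1 hz (ε / 3) (by positivity)).mono fun s h1 => ?_
    rw [dist_eq_norm] at hd h1 ⊢
    have h2 : ‖tn (pr s) 1 * (y - z) * tn (pr s) 1‖ ≤ ‖y - z‖ :=
      (norm_mul_le _ _).trans ((mul_le_of_le_one_right (norm_nonneg _) (hn s)).trans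
        ((norm_mul_le _ _).trans (mul_le_of_le_one_left (norm_nonneg _) (hn s))))
    have e : tn (pr s) 1 * y * tn (pr s) 1 - y = tn (pr s) 1 * (y - z) * tn (pr s) 1 +
        (tn (pr s) 1 * z * tn (pr s) 1 - z) - (y - z) := by noncomm_ring
    rw [e]
    linarith [norm_sub_le (tn (pr s) 1 * (y - z) * tn (pr s) 1 +
        (tn (pr s) 1 * z * tn (pr s) 1 - z)) (y - z), norm_add_le (tn (pr s) 1 * (y - z) * tn (pr s) 1)
        (tn (pr s) 1 * z * tn (pr s) 1 - z)]
  · refine (((continuous_tn_left a).tendsto T).comp (tendsto_pr_pr hT)).congr fun s => ?_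
    simp only [Function.comp, tn_mul, one_mul, mul_one]

theorem approx (hA : IsClosed (A : Set (K →L[ℝ] K))) [CompleteSpace K] [CompleteSpace H] {u : H}
    (hu : ‖u‖ = 1) : MFI.Approx (ctx hA hu) := by
  intro S hS ε hε
  obtain ⟨s, hs⟩ := ((S.eventually_all (l := atTop) (p := fun a (s : Finset H) =>
      ‖tn (pr s) 1 * a.1 * tn (pr s) 1 - a.1‖ < ε)).2 fun a ha =>
    (tendsto_iff_norm_sub_tendsto_zero.1 (tendsto_TK (mem_TJ.1 (hS a ha)))).eventually
      (gt_mem_nhds hε)).exists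
  let b := stdOrthonormalBasis ℝ (Submodule.span ℝ (s : Set H))
  refine ⟨_, fun i => ⟨tn (rankOne ℝ (b i).1 u) 1, tn_mem _ A.one_mem⟩,
    fun i => ⟨tn (rankOne ℝ u (b i).1) 1, tn_mem _ A.one_mem⟩, fun i j => ?_, fun i => ?_,
    fun a ha => ?_⟩
  · have := orthonormal_iff_ite.1 b.orthonormal i j
    rw [Submodule.coe_inner] at this
    refine Subtype.ext (hext fun w v => ?_)
    split_ifs at this ⊢ <;> simp [ctx_io, this]
  · refine Subtype.ext (hext fun w v => ?_)
    simp [ctx_io, hu]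
  · have e : ((∑ i, (⟨tn (rankOne ℝ (b i).1 u) 1, tn_mem _ A.one_mem⟩ : TA H A) *
        ⟨tn (rankOne ℝ u (b i).1) 1, tn_mem _ A.one_mem⟩ : TA H A) : HT H K →L[ℝ] HT H K) =
        tn (pr s) 1 := by
      rw [pr, b.starProjection_eq_sum_rankOne, tn_sum_left, AddSubmonoidClass.coe_finsetSum]
      refine Finset.sum_congr rfl fun i _ => hext fun w v => ?_
      simp [hu]
    have := hs a ha
    rw [← e] at this
    exact this

end Pool.Agent.Lib.TENS
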