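import Mathlib

/-! The Hilbert tensor product and tensor products of bounded operators. -/

set_option linter.unusedSectionVars false

noncomputable section

open scoped TensorProduct InnerProductSpace
open UniformSpace ContinuousLinearMap Filter Topology

namespace Pool.Agent.Lib.TENS

/-- the Hilbert tensor product -/
def HT (H K : Type) [NormedAddCommGroup H] [InnerProductSpace ℝ H] [NormedAddCommGroup K]
    [InnerProductSpace ℝ K] : Type := Completion (H ⊗[ℝ] K)

variable {H H' H'' K K' K'' : Type} [NormedAddCommGroup H] [InnerProductSpace ℝ H]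
  [NormedAddCommGroup H'] [InnerProductSpace ℝ H'] [NormedAddCommGroup H''] [InnerProductSpace ℝ H'']
  [NormedAddCommGroup K] [InnerProductSpace ℝ K] [NormedAddCommGroup K'] [InnerProductSpace ℝ K']
  [NormedAddCommGroup K''] [InnerProductSpace ℝ K'']

instance : NormedAddCommGroup (HT H K) :=
  inferInstanceAs (NormedAddCommGroup (Completion (H ⊗[ℝ] K)))

instance : InnerProductSpace ℝ (HT H K) :=
  inferInstanceAs (InnerProductSpace ℝ (Completion (H ⊗[ℝ] K)))

instance : CompleteSpace (HT H K) := inferInstanceAs (CompleteSpace (Completion (H ⊗[ℝ] K)))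

variable (H K) in
/-- the algebraic tensor product inside the Hilbert tensor product -/
def co : H ⊗[ℝ] K →ₗᵢ[ℝ] HT H K := Completion.toComplₗᵢ

theorem denseRange_co : DenseRange (co H K) := Completion.denseRange_coe

/-- elementary tensors -/
def tm (u : H) (v : K) : HT H K := co H K (u ⊗ₜ[ℝ] v)

theorem inner_tm (u u' : H) (v v' : K) : ⟪tm u v, tm u' v'⟫_ℝ = ⟪u, u'⟫_ℝ * ⟪v, v'⟫_ℝ := by
  simp [tm]

theorem norm_tm (u : H) (v : K) : ‖tm u v‖ = ‖u‖ * ‖v‖ := by simp [tm]

theorem tm_add_left (u u' : H) (v : K) : tm (u + u') v = tm u v + tm u' v := by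
  simp [tm, TensorProduct.add_tmul]

theorem tm_add_right (u : H) (v v' : K) : tm u (v + v') = tm u v + tm u v' := by
  simp [tm, TensorProduct.tmul_add]

theorem tm_smul_left (c : ℝ) (u : H) (v : K) : tm (c • u) v = c • tm u v := by
  simp [tm, ← TensorProduct.smul_tmul']

theorem tm_smul_right (c : ℝ) (u : H) (v : K) : tm u (c • v) = c • tm u v := by
  simp [tm]

variable (H K) in
/-- `tm` as a continuous bilinear map -/
def tmL : H →L[ℝ] K →L[ℝ] HT H K :=
  LinearMap.mkContinuous₂ (LinearMap.mk₂ ℝ tm tm_add_left tm_smul_left tm_add_right tm_smul_right) 1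
    fun u v => by rw [one_mul]; exact (norm_tm u v).le

@[simp] theorem tmL_apply (u : H) (v : K) : tmL H K u v = tm u v := rfl

@[simp] theorem tm_zero_left (v : K) : tm (0 : H) v = 0 := by rw [← tmL_apply, map_zero]; rfl

@[simp] theorem tm_zero_right (u : H) : tm u (0 : K) = 0 := map_zero (tmL H K u)

theorem tm_sum_left {ι : Type*} (s : Finset ι) (u : ι → H) (v : K) :
    tm (∑ i ∈ s, u i) v = ∑ i ∈ s, tm (u i) v := map_sum ((tmL H K).flip v) u s

theorem tm_sum_right {ι : Type*} (s : Finset ι) (u : H) (v : ι → K) :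
    tm u (∑ i ∈ s, v i) = ∑ i ∈ s, tm u (v i) := map_sum (tmL H K u) v s

/-- induction on the tensor product -/
theorem HT.ind {P : HT H K → Prop} (hc : IsClosed {x | P x}) (h0 : P 0) (ht : ∀ u v, P (tm u v))
    (ha : ∀ x y, P x → P y → P (x + y)) (x : HT H K) : P x := by
  refine denseRange_co.induction_on x hc fun a => ?_
  induction a using TensorProduct.induction_on with
  | zero => rwa [map_zero]
  | tmul u v => exact ht u v
  | add a b h h' => rw [map_add]; exact ha _ _ h h'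

theorem mem_of_tm (S : Submodule ℝ (HT H K)) (hS : IsClosed (S : Set (HT H K)))
    (h : ∀ u v, tm u v ∈ S) (x : HT H K) : x ∈ S :=
  HT.ind (P := fun x => x ∈ S) hS S.zero_mem h (fun _ _ => S.add_mem) x

theorem hext {W : Type*} [NormedAddCommGroup W] [NormedSpace ℝ W] {S T : HT H K →L[ℝ] W}
    (h : ∀ u v, S (tm u v) = T (tm u v)) : S = T :=
  ContinuousLinearMap.ext fun x => HT.ind (P := fun x => S x = T x)
    (isClosed_eq S.continuous T.continuous) (by simp) h
    (fun _ _ h h' => by rw [map_add, map_add, h, h']) x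

/-- the tensor product of operators -/
def tn (T : H →L[ℝ] H') (a : K →L[ℝ] K') : HT H K →L[ℝ] HT H' K' :=
  (TensorProduct.mapL T a).completion

theorem tn_co (T : H →L[ℝ] H') (a : K →L[ℝ] K') (x : H ⊗[ℝ] K) :
    tn T a (co H K x) = co H' K' (TensorProduct.mapL T a x) :=
  completion_apply_coe (TensorProduct.mapL T a) x

@[simp] theorem tn_tm (T : H →L[ℝ] H') (a : K →L[ℝ] K') (u : H) (v : K) :
    tn T a (tm u v) = tm (T u) (a v) := tn_co T a _

theorem norm_tn_le (T : H →L[ℝ] H') (a : K →L[ℝ] K') : ‖tn T a‖ ≤ ‖T‖ * ‖a‖ := by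
  refine opNorm_le_bound _ (by positivity) fun x => ?_
  refine denseRange_co.induction_on x (isClosed_le (by fun_prop) (by fun_prop)) fun y => ?_
  rw [tn_co, LinearIsometry.norm_map, LinearIsometry.norm_map]
  exact (le_opNorm _ _).trans
    (mul_le_mul_of_nonneg_right (TensorProduct.norm_mapL_le T a) (norm_nonneg _))

theorem tn_comp (T : H' →L[ℝ] H'') (S : H →L[ℝ] H') (a : K' →L[ℝ] K'') (b : K →L[ℝ] K') :
    tn T a ∘L tn S b = tn (T ∘L S) (a ∘L b) := hext fun _ _ => by simp

theorem tn_mul (T S : H →L[ℝ] H) (a b : K →L[ℝ] K) : tn T a * tn S b = tn (T * S) (a * b) :=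
  tn_comp T S a b

@[simp] theorem tn_one : tn (1 : H →L[ℝ] H) (1 : K →L[ℝ] K) = 1 := hext fun _ _ => by simp

theorem tn_add_left (T S : H →L[ℝ] H') (a : K →L[ℝ] K') : tn (T + S) a = tn T a + tn S a :=
  hext fun _ _ => by simp [tm_add_left]

theorem tn_add_right (T : H →L[ℝ] H') (a b : K →L[ℝ] K') : tn T (a + b) = tn T a + tn T b :=
  hext fun _ _ => by simp [tm_add_right]

theorem tn_smul_left (c : ℝ) (T : H →L[ℝ] H') (a : K →L[ℝ] K') : tn (c • T) a = c • tn T a :=
  hext fun _ _ => by simp [tm_smul_left]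

theorem tn_smul_right (c : ℝ) (T : H →L[ℝ] H') (a : K →L[ℝ] K') : tn T (c • a) = c • tn T a :=
  hext fun _ _ => by simp [tm_smul_right]

variable (H H' K K') in
/-- `tn` as a continuous bilinear map -/
def tnL : (H →L[ℝ] H') →L[ℝ] (K →L[ℝ] K') →L[ℝ] HT H K →L[ℝ] HT H' K' :=
  LinearMap.mkContinuous₂ (LinearMap.mk₂ ℝ tn tn_add_left tn_smul_left tn_add_right tn_smul_right) 1
    fun T a => by rw [one_mul]; exact norm_tn_le T a

@[simp] theorem tnL_apply (T : H →L[ℝ] H') (a : K →L[ℝ] K') : tnL H H' K K' T a = tn T a := rfl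

@[simp] theorem tn_zero_left (a : K →L[ℝ] K') : tn (0 : H →L[ℝ] H') a = 0 := hext fun _ _ => by simp

@[simp] theorem tn_zero_right (T : H →L[ℝ] H') : tn T (0 : K →L[ℝ] K') = 0 := hext fun _ _ => by simp

theorem tn_sub_left (T S : H →L[ℝ] H') (a : K →L[ℝ] K') : tn (T - S) a = tn T a - tn S a :=
  map_sub ((tnL H H' K K').flip a) T S

theorem tn_sub_right (T : H →L[ℝ] H') (a b : K →L[ℝ] K') : tn T (a - b) = tn T a - tn T b :=
  map_sub (tnL H H' K K' T) a b

theorem tn_neg_left (T : H →L[ℝ] H') (a : K →L[ℝ] K') : tn (-T) a = -tn T a :=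
  map_neg ((tnL H H' K K').flip a) T

theorem tn_neg_right (T : H →L[ℝ] H') (a : K →L[ℝ] K') : tn T (-a) = -tn T a :=
  map_neg (tnL H H' K K' T) a

theorem tn_sum_left {ι : Type*} (s : Finset ι) (T : ι → H →L[ℝ] H') (a : K →L[ℝ] K') :
    tn (∑ i ∈ s, T i) a = ∑ i ∈ s, tn (T i) a := map_sum ((tnL H H' K K').flip a) T s

theorem tn_sum_right {ι : Type*} (s : Finset ι) (T : H →L[ℝ] H') (a : ι → K →L[ℝ] K') :
    tn T (∑ i ∈ s, a i) = ∑ i ∈ s, tn T (a i) := map_sum (tnL H H' K K' T) a s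

theorem continuous_tn_left (a : K →L[ℝ] K') : Continuous fun T : H →L[ℝ] H' => tn T a :=
  ((tnL H H' K K').flip a).continuous

theorem continuous_tn_right (T : H →L[ℝ] H') : Continuous fun a : K →L[ℝ] K' => tn T a :=
  (tnL H H' K K' T).continuous

theorem inner_tn {T : H →L[ℝ] H'} {S : H' →L[ℝ] H} {a : K →L[ℝ] K'} {b : K' →L[ℝ] K}
    (h : ∀ u u', ⟪T u, u'⟫_ℝ = ⟪u, S u'⟫_ℝ) (h' : ∀ v v', ⟪a v, v'⟫_ℝ = ⟪v, b v'⟫_ℝ)
    (x : HT H K) (y : HT H' K') : ⟪tn T a x, y⟫_ℝ = ⟪x, tn S b y⟫_ℝ := by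
  induction x using HT.ind with
  | hc => exact isClosed_eq (by fun_prop) (by fun_prop)
  | h0 => simp
  | ha _ _ e e' => rw [map_add, inner_add_left, inner_add_left, e, e']
  | ht u v =>
    induction y using HT.ind with
    | hc => exact isClosed_eq (by fun_prop) (by fun_prop)
    | h0 => simp
    | ha _ _ e e' => rw [map_add, inner_add_right, inner_add_right, e, e']
    | ht u' v' => rw [tn_tm, tn_tm, inner_tm, inner_tm, h, h']

theorem adjoint_tn [CompleteSpace H] [CompleteSpace H'] [CompleteSpace K] [CompleteSpace K']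
    (T : H →L[ℝ] H') (a : K →L[ℝ] K') : adjoint (tn T a) = tn (adjoint T) (adjoint a) :=
  ((eq_adjoint_iff _ _).2 fun y x => inner_tn (fun u u' => adjoint_inner_left T u' u)
    (fun u u' => adjoint_inner_left a u' u) y x).symm

theorem star_tn [CompleteSpace H] [CompleteSpace K] (T : H →L[ℝ] H) (a : K →L[ℝ] K) :
    star (tn T a) = tn (star T) (star a) := adjoint_tn T a

theorem norm_tn_apply_le (T : H →L[ℝ] H') (x : HT H K) : ‖tn T (1 : K →L[ℝ] K) x‖ ≤ ‖T‖ * ‖x‖ :=
  (le_opNorm _ _).trans (mul_le_mul_of_nonneg_right ((norm_tn_le T 1).trans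
    (mul_le_of_le_one_right (norm_nonneg _) norm_id_le)) (norm_nonneg _))

end Pool.Agent.Lib.TENS
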