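import Pool.Agent.Lib.TENS.Alg
import Pool.Agent.Lib.CX.Defs

/-! Compression of `B(H) ⊗ A` to the reduced algebra along an isometry. -/

set_option linter.unusedSectionVars false

noncomputable section

open scoped InnerProductSpace TensorProduct
open ContinuousLinearMap Filter Topology InnerProductSpace BCO

namespace Pool.Agent.Lib.TENS

variable {G H H' H'' K : Type} [Group G] [NormedAddCommGroup H] [InnerProductSpace ℝ H]
  [NormedAddCommGroup H'] [InnerProductSpace ℝ H'] [NormedAddCommGroup H''] [InnerProductSpace ℝ H'']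
  [NormedAddCommGroup K] [InnerProductSpace ℝ K]
  [CompleteSpace H] [CompleteSpace H'] [CompleteSpace H''] [CompleteSpace K]

/-- the vector `g ↦ ξ g • u` -/
def vt (u : H) (ξ : V G ℝ) : V G H := amp G (toSpanSingleton ℝ u) ξ

@[simp] theorem vt_apply (u : H) (ξ : V G ℝ) (g : G) : vt u ξ g = ξ g • u := rfl

theorem inner_vt (u u' : H) (ξ ξ' : V G ℝ) : ⟪vt u ξ, vt u' ξ'⟫_ℝ = ⟪u, u'⟫_ℝ * ⟪ξ, ξ'⟫_ℝ := by
  rw [lp.inner_eq_tsum, lp.inner_eq_tsum, ← tsum_mul_left]
  refine tsum_congr fun g => ?_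
  simp only [vt_apply, inner_smul_left, inner_smul_right]
  simp; ring

variable (G H) in
/-- the algebraic identification -/
def th0 : H ⊗[ℝ] V G ℝ →ₗᵢ[ℝ] V G H :=
  LinearMap.isometryOfInner (TensorProduct.lift (LinearMap.mk₂ ℝ vt
    (fun _ _ _ => lp.ext (funext fun _ => smul_add _ _ _))
    (fun _ _ _ => lp.ext (funext fun _ => smul_comm _ _ _))
    (fun u => map_add (amp G (toSpanSingleton ℝ u)))
    fun c u => map_smul (amp G (toSpanSingleton ℝ u)) c)) fun x y => by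
    induction x using TensorProduct.induction_on with
    | zero => simp
    | add _ _ h h' => rw [map_add, inner_add_left, inner_add_left, h, h']
    | tmul u ξ =>
      induction y using TensorProduct.induction_on with
      | zero => simp
      | add _ _ h h' => rw [map_add, inner_add_right, inner_add_right, h, h']
      | tmul u' ξ' => simpa using inner_vt u u' ξ ξ'

variable (G H) in
/-- the identification of `H ⊗ ℓ²(G)` with `ℓ²(G, H)` -/
def th : HT H (V G ℝ) →L[ℝ] V G H := (th0 G H).toContinuousLinearMap.fromCompletion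

theorem th_co (x : H ⊗[ℝ] V G ℝ) : th G H (co H _ x) = th0 G H x :=
  fromCompletion_apply_coe (th0 G H).toContinuousLinearMap x

@[simp] theorem th_tm (u : H) (ξ : V G ℝ) : th G H (tm u ξ) = vt u ξ := th_co _

theorem norm_th (x : HT H (V G ℝ)) : ‖th G H x‖ = ‖x‖ := by
  refine denseRange_co.induction_on x (isClosed_eq (by fun_prop) (by fun_prop)) fun y => ?_
  rw [th_co, LinearIsometry.norm_map, LinearIsometry.norm_map]

theorem mem_of_vt (S : Submodule ℝ (V G H)) (hS : IsClosed (S : Set (V G H)))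
    (h : ∀ u ξ, vt u ξ ∈ S) (x : V G H) : x ∈ S := by
  classical
  refine hS.mem_of_tendsto (lp.hasSum_single (by norm_num) x) (Eventually.of_forall fun t => ?_)
  refine S.sum_mem fun g _ => ?_
  have : lp.single 2 g (x g) = vt (x g) (lp.single 2 g (1 : ℝ)) := lp.ext (funext fun y => by
    by_cases e : y = g
    · subst e; simp
    · simp [Pi.single_eq_of_ne e])
  exact this ▸ h _ _

theorem vext {W : Type*} [NormedAddCommGroup W] [NormedSpace ℝ W] {S T : V G H →L[ℝ] W}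
    (h : ∀ u ξ, S (vt u ξ) = T (vt u ξ)) : S = T :=
  ContinuousLinearMap.ext fun x => mem_of_vt (LinearMap.eqLocus S.toLinearMap T.toLinearMap)
    (isClosed_eq S.continuous T.continuous) h x

variable (G H) in
/-- the identification as an isometric equivalence -/
def thE : HT H (V G ℝ) ≃ₗᵢ[ℝ] V G H :=
  LinearIsometryEquiv.ofSurjective ⟨(th G H).toLinearMap, norm_th⟩ fun x =>
    mem_of_vt (LinearMap.range (th G H).toLinearMap)
      (LinearIsometry.isometry ⟨(th G H).toLinearMap, norm_th⟩).isClosedEmbedding.isClosed_range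
      (fun u ξ => ⟨tm u ξ, th_tm u ξ⟩) x

theorem thE_symm_vt (u : H) (ξ : V G ℝ) : (thE G H).symm (vt u ξ) = tm u ξ :=
  (thE G H).symm_apply_eq.2 (th_tm u ξ).symm

variable (j : V G ℝ →ₗᵢ[ℝ] K)

variable (H) in
/-- the amplified isometry `ℓ²(G, H) → H ⊗ K` -/
def Jm : V G H →L[ℝ] HT H K :=
  tn 1 j.toContinuousLinearMap ∘L (thE G H).symm.toLinearIsometry.toContinuousLinearMap

@[simp] theorem Jm_vt (u : H) (ξ : V G ℝ) : Jm H j (vt u ξ) = tm u (j ξ) := by
  simp [Jm, thE_symm_vt]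

theorem adjoint_Jm_tm (u : H) (ξ : V G ℝ) : adjoint (Jm H j) (tm u (j ξ)) = vt u ξ := by
  have : innerSL ℝ (adjoint (Jm H j) (tm u (j ξ))) = innerSL ℝ (vt u ξ) := vext fun u' ξ' => by
    simp [adjoint_inner_left, inner_tm, inner_vt]
  exact ext_inner_right ℝ fun y => congrArg (· y) this

theorem adjoint_Jm_Jm : adjoint (Jm H j) ∘L Jm H j = 1 := vext fun u ξ => by
  simp [adjoint_Jm_tm]

theorem norm_Jm_apply (x : V G H) : ‖Jm H j x‖ = ‖x‖ :=
  (norm_map_iff_adjoint_comp_self _).2 (adjoint_Jm_Jm j) x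

variable (H H') in
/-- the compression -/
def cp : (HT H K →L[ℝ] HT H' K) →L[ℝ] V G H →L[ℝ] V G H' :=
  (compL ℝ (V G H) (HT H' K) (V G H') (adjoint (Jm H' j))) ∘L
    (compL ℝ (V G H) (HT H K) (HT H' K)).flip (Jm H j)

theorem cp_apply (x : HT H K →L[ℝ] HT H' K) : cp H H' j x = adjoint (Jm H' j) ∘L x ∘L Jm H j := rfl

variable {j}

theorem cp_eq {x : HT H K →L[ℝ] HT H' K} {y : V G H →L[ℝ] V G H'}
    (h : x ∘L Jm H j = Jm H' j ∘L y) : cp H H' j x = y := by
  rw [cp_apply, h, ← comp_assoc, adjoint_Jm_Jm]; rfl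

theorem cp_tn_vt (T : H →L[ℝ] H') {a : K →L[ℝ] K} {b : V G ℝ →L[ℝ] V G ℝ}
    (h : ∀ ξ, a (j ξ) = j (b ξ)) (u : H) (ξ : V G ℝ) :
    cp H H' j (tn T a) (vt u ξ) = vt (T u) (b ξ) := by
  simp [cp_apply, h, adjoint_Jm_tm]

theorem cp_tn_lam (T : H →L[ℝ] H') {a : K →L[ℝ] K} {g : G} (h : ∀ ξ, a (j ξ) = j (lam g ξ)) :
    cp H H' j (tn T a) = tw g T := vext fun u ξ => by
  rw [cp_tn_vt T h]
  exact lp.ext (funext fun x => by simp)

theorem cp_tn_one (T : H →L[ℝ] H') : cp H H' j (tn T 1) = amp G T := vext fun u ξ => by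
  rw [cp_tn_vt T (b := 1) fun _ => rfl]
  exact lp.ext (funext fun x => by simp)

theorem cp_tn_fac (i : ℝ →L[ℝ] H') (q : H →L[ℝ] ℝ) {a : K →L[ℝ] K} {b : V G ℝ →L[ℝ] V G ℝ}
    (h : ∀ ξ, a (j ξ) = j (b ξ)) : cp H H' j (tn (i ∘L q) a) = amp G i ∘L b ∘L amp G q :=
  vext fun u ξ => by
    rw [cp_tn_vt _ h]
    have : amp G q (vt u ξ) = q u • ξ := lp.ext (funext fun x => by simp [mul_comm])
    simp only [comp_apply, this, map_smul]
    refine lp.ext (funext fun x => ?_)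
    have key : ∀ r s : ℝ, r • i s = s • i r := fun r s => by
      rw [← map_smul, ← map_smul, smul_eq_mul, smul_eq_mul, mul_comm]
    exact key (b ξ x) (q u)

theorem cp_adjoint (x : HT H K →L[ℝ] HT H' K) :
    cp H' H j (adjoint x) = adjoint (cp H H' j x) := by
  simp only [cp_apply, adjoint_comp, adjoint_adjoint, comp_assoc]

/-- every element of `A` restricts along `j` to an element of the reduced algebra -/
def Res (j : V G ℝ →ₗᵢ[ℝ] K) (A : Subalgebra ℝ (K →L[ℝ] K)) : Prop :=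
  ∀ a ∈ A, ∃ b ∈ RA G ℝ, ∀ ξ, a (j ξ) = j (b ξ)

variable {A : Subalgebra ℝ (K →L[ℝ] K)}

theorem comp_Jm (hA : Res j A) {x : HT H K →L[ℝ] HT H' K} (hx : x ∈ TR H H' A) :
    x ∘L Jm H j = Jm H' j ∘L cp H H' j x := by
  refine TR_ind (LinearMap.eqLocus ((compL ℝ (V G H) (HT H K) (HT H' K)).flip (Jm H j)).toLinearMap
    (compL ℝ (V G H) (V G H') (HT H' K) (Jm H' j) ∘L cp H H' j).toLinearMap)
    (isClosed_eq (ContinuousLinearMap.continuous _) (ContinuousLinearMap.continuous _))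
    (fun T a ha => ?_) hx
  obtain ⟨b, -, h⟩ := hA a ha
  change tn T a ∘L Jm H j = Jm H' j ∘L cp H H' j (tn T a)
  refine vext fun u ξ => ?_
  simp [cp_tn_vt T h, h]

theorem cp_comp (hA : Res j A) (x : HT H' K →L[ℝ] HT H'' K) {y : HT H K →L[ℝ] HT H' K}
    (hy : y ∈ TR H H' A) : cp H H'' j (x ∘L y) = cp H' H'' j x ∘L cp H H' j y := by
  rw [cp_apply, comp_assoc, comp_Jm hA hy, cp_apply j x]
  rfl

theorem cp_tn_mem (T : H →L[ℝ] H') (S : Submodule ℝ (V G H →L[ℝ] V G H'))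
    (hS : IsClosed (S : Set (V G H →L[ℝ] V G H'))) (hT : ∀ g, tw g T ∈ S) {a : K →L[ℝ] K}
    {b : V G ℝ →L[ℝ] V G ℝ} (hb : b ∈ RA G ℝ) (h : ∀ ξ, a (j ξ) = j (b ξ)) :
    cp H H' j (tn T a) ∈ S := by
  have e : cp H H' j (tn T a) = cp H H' LinearIsometry.id (tn T b) := vext fun u ξ => by
    rw [cp_tn_vt T h, cp_tn_vt T (b := b) fun _ => rfl]
  rw [e]
  let ψ : (V G ℝ →L[ℝ] V G ℝ) →L[ℝ] V G H →L[ℝ] V G H' :=
    cp H H' (LinearIsometry.id : V G ℝ →ₗᵢ[ℝ] V G ℝ) ∘L tnL H H' (V G ℝ) (V G ℝ) T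
  have hψ : ∀ b, ψ b = cp H H' LinearIsometry.id (tn T b) := fun _ => rfl
  rw [← hψ]
  refine RR_map (G := G) (E := ℝ) (F := ℝ) ψ S hS (fun g c => ?_) (mem_RA.1 hb)
  have e2 : tw g c = c 1 • (lam g : V G ℝ →L[ℝ] V G ℝ) := op_ext fun ξ x => by
    have key : ∀ r : ℝ, c r = c 1 * r := fun r => by
      rw [mul_comm, ← smul_eq_mul r, ← map_smul, smul_eq_mul, mul_one]
    exact key _
  rw [hψ, e2, tn_smul_right, map_smul, cp_tn_lam T (g := g) fun _ => rfl]
  exact S.smul_mem _ (hT g)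

theorem cp_mem (hA : Res j A) {x : HT H K →L[ℝ] HT H' K} (hx : x ∈ TR H H' A) :
    cp H H' j x ∈ RR G H H' :=
  TR_map _ _ isClosed_RR (fun T a ha => (hA a ha).elim fun _ h =>
    cp_tn_mem T _ isClosed_RR (fun g => tw_mem g T) h.1 h.2) hx

theorem cp_mem_KK (hA : Res j A) {x : HT H K →L[ℝ] HT H K} (hx : x ∈ TK H H A) :
    cp H H j x ∈ CX.KK G H := by
  refine TK_map _ (CX.KK G H) (Submodule.isClosed_topologicalClosure _) (fun T hT a ha => ?_) hx
  obtain ⟨b, h1, h2⟩ := hA a ha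
  refine cp_tn_mem T (CX.KK G H) (Submodule.isClosed_topologicalClosure _) (fun g => ?_) h1 h2
  exact Submodule.le_topologicalClosure _ (Submodule.subset_span ⟨g, T, hT, rfl⟩)

variable (H) in
/-- the compression as a ring homomorphism -/
def Phi (hA : Res j A) : TA H A →+* RA G H where
  toFun x := ⟨cp H H j x.1, cp_mem hA x.2⟩
  map_one' := Subtype.ext (by
    change cp H H j 1 = 1
    rw [← tn_one, cp_tn_one]; exact map_one (ampA G))
  map_mul' x y := Subtype.ext (cp_comp hA x.1 y.2)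
  map_zero' := Subtype.ext (map_zero _)
  map_add' x y := Subtype.ext (map_add _ _ _)

theorem Phi_coe (hA : Res j A) (x : TA H A) : (Phi H hA x).1 = cp H H j x.1 := rfl

theorem adj_j (ξ : V G ℝ) : adjoint j.toContinuousLinearMap (j ξ) = ξ :=
  congrArg (· ξ) j.adjoint_comp_self

/-- the restriction homomorphism `A → C*_r G` -/
def phi (hA : Res j A) : A →+* CX.Cr G where
  toFun a := ⟨adjoint j.toContinuousLinearMap ∘L a.1 ∘L j.toContinuousLinearMap, by
    obtain ⟨b, hb, h⟩ := hA a.1 a.2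
    convert hb using 1
    ext1 ξ
    simp [h, adj_j]⟩
  map_one' := Subtype.ext j.adjoint_comp_self
  map_mul' a c := Subtype.ext (by
    obtain ⟨b, -, h⟩ := hA c.1 c.2
    ext1 ξ
    simp [h, adj_j])
  map_zero' := Subtype.ext (by simp)
  map_add' a c := Subtype.ext (by simp [add_comp, comp_add])

theorem phi_spec (hA : Res j A) (a : A) (ξ : V G ℝ) : a.1 (j ξ) = j ((phi hA a).1 ξ) := by
  obtain ⟨b, -, h⟩ := hA a.1 a.2
  simp [phi, h, adj_j]

theorem Phi_io (hA : Res j A) (hc : IsClosed (A : Set (K →L[ℝ] K))) {u : H} (hu : ‖u‖ = 1) (a : A) :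
    (Phi H hA ((ctx hc hu).io a)).1 =
      amp G (toSpanSingleton ℝ u) ∘L (phi hA a).1 ∘L amp G (innerSL ℝ u) := by
  rw [Phi_coe, ctx_io, rankOne_def']
  exact cp_tn_fac _ _ (phi_spec hA a)

theorem Phi_J (hA : Res j A) (hc : IsClosed (A : Set (K →L[ℝ] K))) {u : H} (hu : ‖u‖ = 1)
    {x : TA H A} (hx : x ∈ (ctx hc hu).J) : (Phi H hA x).1 ∈ CX.KK G H :=
  cp_mem_KK hA (mem_TJ.1 hx)

/-- the closed algebra generated by a set of operators that restrict to the reduced algebra -/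
theorem res_closure {s : Set (K →L[ℝ] K)} (hs : ∀ a ∈ s, ∃ b ∈ RA G ℝ, ∀ ξ, a (j ξ) = j (b ξ)) :
    Res j (Algebra.adjoin ℝ s).topologicalClosure := by
  let B : Subalgebra ℝ (K →L[ℝ] K) :=
    { carrier := {a | ∃ b ∈ RA G ℝ, ∀ ξ, a (j ξ) = j (b ξ)}
      mul_mem' := fun ⟨b, hb, h⟩ ⟨d, hd, h'⟩ => ⟨b * d, mul_mem hb hd, fun ξ => by simp [h, h']⟩
      add_mem' := fun ⟨b, hb, h⟩ ⟨d, hd, h'⟩ => ⟨b + d, add_mem hb hd, fun ξ => by simp [h, h']⟩
      algebraMap_mem' := fun r => ⟨algebraMap ℝ _ r, algebraMap_mem _ r, fun ξ => by simp⟩ }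
  have hB : (B : Set (K →L[ℝ] K)) = {a | adjoint j.toContinuousLinearMap ∘L a ∘L
      j.toContinuousLinearMap ∈ RA G ℝ} ∩ ⋂ ξ, {a | a (j ξ) =
        j (adjoint j.toContinuousLinearMap (a (j ξ)))} := by
    ext a
    refine ⟨fun ⟨b, hb, h⟩ => ⟨?_, Set.mem_iInter.2 fun ξ => by simp [h, adj_j]⟩,
      fun h => ⟨_, h.1, Set.mem_iInter.1 h.2⟩⟩
    have e : adjoint j.toContinuousLinearMap ∘L a ∘L j.toContinuousLinearMap = b := by
      ext1 ξ
      simp [h, adj_j]
    exact (e ▸ hb : _ ∈ RA G ℝ)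
  refine Subalgebra.topologicalClosure_minimal (Algebra.adjoin_le (S := B) hs) ?_
  rw [hB]
  exact (isClosed_RA.preimage (by fun_prop)).inter
    (isClosed_iInter fun ξ => isClosed_eq (by fun_prop) (by fun_prop))

end Pool.Agent.Lib.TENS
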